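import Pool.Agent.Lib_helper3.TSI.Final

/-!
# MP_c2297e_co: positivity of a relative h-number of a subdivided simplex

For every topological subdivision `(Γ, σ)` of the simplex `2^V` with `V = Fin d`, and for the
subcomplex `Δ` of `2^V` generated by the `i = |S| ≥ 1` codimension-one faces `V \ {v}`, `v ∈ S`,
the number `h_i(Γ/Γ_Δ)` is positive.
-/

set_option autoImplicit false

namespace Pool.Agent.Results.MP_c2297e_co.RelativePositivity

open Pool.Agent.TSI

theorem result (d n : ℕ) (Γ : Finset (Finset (Fin n))) (σ : Finset (Fin n) → Finset (Fin d))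
    (h : IsTopSubdivision Γ σ) (S : Finset (Fin d)) (hS : S.Nonempty) :
    0 < hNumber d (relComplex Γ σ (facetComplex S)) S.card :=
  main Γ σ h S hS

end Pool.Agent.Results.MP_c2297e_co.RelativePositivity
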